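import Mathlib

set_option autoImplicit false

namespace Pool.Agent.H.MP_ccd76d_co.A

open scoped RealInnerProductSpace

variable {E : Type} [NormedAddCommGroup E] [InnerProductSpace ℝ E]

noncomputable def L (g : E ≃ᵃⁱ[ℝ] E) : E ≃ₗᵢ[ℝ] E := g.linearIsometryEquiv

lemma Lsub (g : E ≃ᵃⁱ[ℝ] E) (x y : E) : L g (x - y) = g x - g y := g.map_vsub x y

lemma ap (g : E ≃ᵃⁱ[ℝ] E) (x : E) : g x = L g x + g 0 := by
  have := Lsub g x 0
  rw [sub_zero] at this; rw [this]; abel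

lemma mul_ap (g h : E ≃ᵃⁱ[ℝ] E) (x : E) : (g * h) x = g (h x) := rfl
lemma ap_inv (g : E ≃ᵃⁱ[ℝ] E) (x : E) : g (g⁻¹ x) = x := g.apply_symm_apply x
lemma inv_ap (g : E ≃ᵃⁱ[ℝ] E) (x : E) : g⁻¹ (g x) = x := g.symm_apply_apply x

/-- the linear part as a group homomorphism -/
noncomputable def Lh : (E ≃ᵃⁱ[ℝ] E) →* (E ≃ₗᵢ[ℝ] E) := MonoidHom.mk' L fun g h => by
  ext x
  have h1 := Lsub (g * h) x 0
  have h2 := Lsub h x 0
  rw [sub_zero] at h1 h2
  rw [h1, LinearIsometryEquiv.coe_mul, Function.comp_apply, h2, Lsub]; rfl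

lemma L_mul (g h : E ≃ᵃⁱ[ℝ] E) : L (g * h) = L g * L h := map_mul Lh g h
lemma L_inv (g : E ≃ᵃⁱ[ℝ] E) : L g⁻¹ = (L g)⁻¹ := map_inv Lh g
lemma L_one : L (1 : E ≃ᵃⁱ[ℝ] E) = 1 := map_one Lh

def Cl (θ : ℝ) (A : E ≃ₗᵢ[ℝ] E) : Prop := ∀ x, ‖A x - x‖ ≤ θ * ‖x‖

lemma nss (c : E ≃ₗᵢ[ℝ] E) (θ : ℝ) (hθ : θ < 1) (h : ∀ k : ℕ, Cl θ (c ^ k)) : c = 1 := by
  ext x
  have t : ∀ n : ℕ, ‖(c ^ n) x - x - (n : ℝ) • (c x - x)‖ ≤ n * (θ * ‖c x - x‖) := by
    intro n
    induction n with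
    | zero => simp
    | succ n ih =>
      have e : (c ^ (n + 1)) x - x - ((n + 1 : ℕ) : ℝ) • (c x - x) =
          ((c ^ n) x - x - (n : ℝ) • (c x - x)) + ((c ^ n) (c x - x) - (c x - x)) := by
        rw [pow_succ, LinearIsometryEquiv.coe_mul, Function.comp_apply, map_sub]
        push_cast; rw [add_smul, one_smul]; abel
      rw [e]
      refine (norm_add_le _ _).trans ?_
      have := h n (c x - x)
      push_cast; linarith
  by_contra hx
  have p : 0 < (1 - θ) * ‖c x - x‖ := mul_pos (by linarith) (norm_pos_iff.2 (sub_ne_zero.2 hx))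
  obtain ⟨n, hn⟩ := exists_nat_gt (2 * ‖x‖ / ((1 - θ) * ‖c x - x‖))
  rw [div_lt_iff₀ p] at hn
  have a1 := norm_sub_le ((c ^ n) x) x
  rw [LinearIsometryEquiv.norm_map] at a1
  have a2 := norm_sub_le ((c ^ n) x - x) ((c ^ n) x - x - (n : ℝ) • (c x - x))
  rw [sub_sub_cancel, norm_smul, Real.norm_natCast] at a2
  nlinarith [t n]

lemma lin (A B : E ≃ₗᵢ[ℝ] E) (θ : ℝ) (hθ : 2 * θ < 1) (hB : Cl θ B)
    (h : A * (A * B * A⁻¹ * B⁻¹) * A⁻¹ * (A * B * A⁻¹ * B⁻¹)⁻¹ = 1) : A * B * A⁻¹ * B⁻¹ = 1 := by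
  set c := A * B * A⁻¹ * B⁻¹ with hc
  have cm : Commute A c := by
    have : A * c = (A * c * A⁻¹ * c⁻¹) * (c * A) := by group
    rw [h, one_mul] at this; exact this
  have e : ∀ k : ℕ, c ^ k = A ^ k * B * (A ^ k)⁻¹ * B⁻¹ := by
    intro k
    induction k with
    | zero => simp
    | succ k ih =>
      have e1 : A ^ (k + 1) * B * (A ^ (k + 1))⁻¹ * B⁻¹ =
          A * (A ^ k * B * (A ^ k)⁻¹ * B⁻¹) * A⁻¹ * c := by
        rw [hc, pow_succ']; group
      rw [e1, ← ih, (cm.pow_right k).eq, mul_inv_cancel_right, pow_succ]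
  refine nss c (2 * θ) hθ fun k x => ?_
  rw [e]
  have a1 := hB (B⁻¹ x)
  have a2 := hB ((A ^ k)⁻¹ (B⁻¹ x))
  rw [← (A ^ k).norm_map (_ - _), map_sub] at a2
  simp only [LinearIsometryEquiv.norm_map, LinearIsometryEquiv.coe_inv,
    LinearIsometryEquiv.apply_symm_apply, LinearIsometryEquiv.coe_mul, Function.comp_apply] at *
  have := norm_sub_le ((A ^ k) (B ((A ^ k).symm (B.symm x))) - B.symm x) (x - B.symm x)
  rw [sub_sub_sub_cancel_right] at this
  linarith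

lemma clc {A B : E ≃ₗᵢ[ℝ] E} {η θ : ℝ} (h1 : 0 ≤ η) (h2 : 0 ≤ θ) (hA : Cl η A) (hB : Cl θ B)
    (y : E) : ‖A (B y) - B (A y)‖ ≤ 2 * η * θ * ‖y‖ := by
  have e : A (B y) - B (A y) = (A (B y - y) - (B y - y)) - (B (A y - y) - (A y - y)) := by
    simp only [map_sub]; abel
  rw [e]
  refine (norm_sub_le _ _).trans ?_
  have a1 := (hA (B y - y)).trans (mul_le_mul_of_nonneg_left (hB y) h1)
  have a2 := (hB (A y - y)).trans (mul_le_mul_of_nonneg_left (hA y) h2)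
  linarith

lemma sq (A : E ≃ₗᵢ[ℝ] E) (x : E) (h : A (A x - x) = A x - x) : A x = x := by
  have e : ⟪A x - x, A x - x⟫ = 0 := by
    rw [inner_sub_right (A x - x)]
    nth_rewrite 1 [← h]
    rw [A.inner_map_map, sub_self]
  exact sub_eq_zero.1 (inner_self_eq_zero.1 e)

/-- a commuting family of isometries acts by translations on an invariant affine subspace -/
lemma base [FiniteDimensional ℝ E] (Γ : Set (E ≃ᵃⁱ[ℝ] E))
    (hc : ∀ g ∈ Γ, ∀ h ∈ Γ, g * h = h * g) :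
    ∃ p : E, ∀ g ∈ Γ, ∀ h ∈ Γ, L g (h p - p) = h p - p := by
  obtain ⟨W, ⟨p, hW⟩, hm⟩ := IsArtinian.set_has_minimal (R := ℝ) (M := E)
    {W | ∃ p : E, ∀ g ∈ Γ, (∀ w ∈ W, L g w ∈ W) ∧ g p - p ∈ W}
    ⟨⊤, 0, fun _ _ => ⟨fun _ _ => trivial, trivial⟩⟩
  refine ⟨p, fun g hg h hh => ?_⟩
  let T : E →ₗ[ℝ] E := (L g).toLinearEquiv.toLinearMap - LinearMap.id
  have hT : ∀ x, T x = L g x - x := fun x => rfl
  obtain ⟨u, ⟨v, hv, rfl⟩, z, hz, e⟩ := (W.map T).exists_add_mem_mem_orthogonal (g p - p)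
  have zW : z ∈ W := by
    have : z = g p - p - (L g v - v) := by rw [e, hT]; abel
    rw [this]; exact W.sub_mem (hW g hg).2 (W.sub_mem ((hW g hg).1 v hv) hv)
  have z0 : L g z = z := by
    have a : ⟪L g z - z, z⟫ = 0 := (Submodule.mem_orthogonal _ _).1 hz _ ⟨z, zW, rfl⟩
    have : ⟪L g z - z, L g z - z⟫ = 0 := by
      rw [inner_sub_left] at a
      rw [inner_sub_left, inner_sub_right, inner_sub_right, (L g).inner_map_map,
        real_inner_comm (L g z) z]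
      linarith
    exact sub_eq_zero.1 (inner_self_eq_zero.1 this)
  have e1 : g (p - v) - (p - v) = z := by
    rw [ap g (p - v), map_sub]; rw [ap g p, hT] at e
    linear_combination (norm := abel_nf) e
  have cL : ∀ k ∈ Γ, ∀ x, L g (L k x) = L k (L g x) := fun k hk x => by
    have := congrArg (fun a => L a x) (hc g hg k hk)
    simp only [L_mul] at this; exact this
  have m : W ⊓ LinearMap.ker T ∈
      {W : Submodule ℝ E | ∃ p : E, ∀ g ∈ Γ, (∀ w ∈ W, L g w ∈ W) ∧ g p - p ∈ W} := by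
    refine ⟨p - v, fun k hk => ⟨fun w hw => ⟨(hW k hk).1 w hw.1, ?_⟩, ?_, ?_⟩⟩
    · have := hw.2
      simp only [SetLike.mem_coe, LinearMap.mem_ker, hT] at this ⊢
      rw [cL k hk, ← map_sub, this, map_zero]
    · have : k (p - v) - (p - v) = k p - p - (L k v - v) := by
        rw [ap k (p - v), ap k p, map_sub]; abel
      rw [this]; exact W.sub_mem (hW k hk).2 (W.sub_mem ((hW k hk).1 v hv) hv)
    · simp only [SetLike.mem_coe, LinearMap.mem_ker, hT]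
      have a : L g (k (p - v) - (p - v)) - (k (p - v) - (p - v)) = L k z - z := by
        have b : g (k (p - v)) = k (g (p - v)) := by rw [← mul_ap, hc g hg k hk, mul_ap]
        rw [← e1, Lsub, Lsub, b]; abel
      refine sub_eq_zero.2 (sq _ _ ?_)
      rw [a, map_sub, cL k hk, z0]
  have le : W ≤ LinearMap.ker T := by
    by_contra hn
    exact hm _ m (lt_of_le_of_ne inf_le_left fun h => hn (inf_eq_left.1 h))
  exact sub_eq_zero.1 (le (hW h hh).2)

/-- iterated commutators -/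
noncomputable def it (g h : E ≃ᵃⁱ[ℝ] E) : ℕ → (E ≃ᵃⁱ[ℝ] E)
  | 0 => h
  | k + 1 => g * it g h k * g⁻¹ * (it g h k)⁻¹

lemma com0 (g h : E ≃ᵃⁱ[ℝ] E) : (g * h * g⁻¹ * h⁻¹) 0 =
    (L g (L h (g⁻¹ (h⁻¹ 0))) - L h (L g (g⁻¹ (h⁻¹ 0)))) + (L g (h 0) - h 0) - (L h (g 0) - g 0) := by
  have e : h (g (g⁻¹ (h⁻¹ 0))) = 0 := by rw [ap_inv, ap_inv]
  simp only [mul_ap]
  generalize g⁻¹ (h⁻¹ 0) = y at *
  rw [ap h, ap g y, map_add] at e
  rw [ap g, ap h y, map_add]
  linear_combination (norm := abel_nf) e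

lemma inv0 (g : E ≃ᵃⁱ[ℝ] E) (x : E) : ‖g⁻¹ x‖ ≤ ‖x‖ + ‖g 0‖ := by
  have := ap g (g⁻¹ x)
  rw [ap_inv] at this
  rw [← (L g).norm_map, eq_sub_of_add_eq this.symm]
  exact norm_sub_le _ _

lemma it_bd (g h : E ≃ᵃⁱ[ℝ] E) (hg : Cl (1 / 16) (L g)) (hh : Cl (1 / 16) (L h)) (k : ℕ) :
    Cl (1 / 16 * (1 / 4) ^ k * (1 / 2) ^ k) (L (it g h k)) ∧
      ‖it g h k 0‖ ≤ (‖h 0‖ + ‖g 0‖) * (1 / 4) ^ k := by
  induction k with
  | zero => exact ⟨by simpa [it] using hh, by simp [it]⟩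
  | succ k ih =>
    obtain ⟨i1, i2⟩ := ih
    have p1 : (0 : ℝ) < (1 / 4) ^ k := by positivity
    have p2 : (0 : ℝ) < (1 / 2) ^ k := by positivity
    have q1 : ((1 : ℝ) / 4) ^ k ≤ 1 := pow_le_one₀ (by norm_num) (by norm_num)
    have q2 : ((1 : ℝ) / 2) ^ k ≤ 1 := pow_le_one₀ (by norm_num) (by norm_num)
    have c := clc (by norm_num) (by positivity) hg i1
    refine ⟨fun x => ?_, ?_⟩
    · have := c ((L g)⁻¹ ((L (it g h k))⁻¹ x))
      simp only [it, L_mul, L_inv, LinearIsometryEquiv.norm_map, LinearIsometryEquiv.coe_inv,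
        LinearIsometryEquiv.apply_symm_apply, LinearIsometryEquiv.coe_mul,
        Function.comp_apply] at this ⊢
      refine this.trans (le_of_eq ?_)
      ring
    · rw [it, com0]
      refine (norm_sub_le _ _).trans ((add_le_add_left (norm_add_le _ _) _).trans ?_)
      have a1 := c (g⁻¹ ((it g h k)⁻¹ 0))
      have a2 := inv0 g ((it g h k)⁻¹ 0)
      have a3 := inv0 (it g h k) 0
      have a4 := hg (it g h k 0)
      have a5 := i1 (g 0)
      rw [norm_zero, zero_add] at a3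
      set a := ‖g 0‖
      set b := ‖it g h k 0‖
      set s := ((1 : ℝ) / 4) ^ k
      set t := ((1 : ℝ) / 2) ^ k
      have ha : 0 ≤ a := norm_nonneg _
      have hb : 0 ≤ b := norm_nonneg _
      have st : s * t ≤ s := by nlinarith
      have a6 : s * t * ‖g⁻¹ ((it g h k)⁻¹ 0)‖ ≤ s * (b + a) :=
        mul_le_mul st (by linarith) (norm_nonneg _) p1.le
      have a7 : s * t * a ≤ s * a := mul_le_mul_of_nonneg_right st ha
      have a8 : s * b ≤ b := by nlinarith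
      have a9 : 0 ≤ ‖h 0‖ * s := by positivity
      rw [pow_succ]
      nlinarith

lemma down (P : ℕ → Prop) (m K : ℕ) (hK : P (m + K)) (h : ∀ k, m ≤ k → P (k + 1) → P k) : P m := by
  induction K with
  | zero => exact hK
  | succ K ih => exact ih (h _ (Nat.le_add_right _ _) hK)

lemma fixw (g h : E ≃ᵃⁱ[ℝ] E) (hg : Cl (1 / 16) (L g)) (hh : Cl (1 / 16) (L h)) (K : ℕ)
    (hK : ∀ k, K ≤ k → it g h k = 1) :
    L g * L h * (L g)⁻¹ * (L h)⁻¹ = 1 ∧
      L g ((g * h * g⁻¹ * h⁻¹) 0) = (g * h * g⁻¹ * h⁻¹) 0 := by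
  have s : ∀ k, L (it g h (k + 1)) = L g * L (it g h k) * (L g)⁻¹ * (L (it g h k))⁻¹ := by
    intro k; simp only [it, L_mul, L_inv]
  have a : L (it g h 1) = 1 := by
    refine down (fun k => L (it g h k) = 1) 1 K (by rw [hK _ (by omega), L_one]) fun k hk e => ?_
    obtain ⟨k, rfl⟩ : ∃ j, k = j + 1 := ⟨k - 1, by omega⟩
    rw [s, s] at e
    rw [s]
    refine lin _ _ _ ?_ (it_bd g h hg hh k).1 e
    have q1 : ((1 : ℝ) / 4) ^ k ≤ 1 := pow_le_one₀ (by norm_num) (by norm_num)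
    have q2 : ((1 : ℝ) / 2) ^ k ≤ 1 := pow_le_one₀ (by norm_num) (by norm_num)
    have p2 : (0 : ℝ) < (1 / 2) ^ k := by positivity
    nlinarith
  have b : ∀ k, L (it g h (k + 1)) = 1 := by
    intro k
    induction k with
    | zero => exact a
    | succ k ih => rw [s, ih]; simp
  have c : ∀ k, it g h (k + 2) 0 = L g (it g h (k + 1) 0) - it g h (k + 1) 0 := by
    intro k
    rw [it, com0, b]; simp
  refine ⟨by rw [← a, s]; rfl, ?_⟩
  have d : it g h 2 0 = 0 := by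
    refine down (fun k => it g h k 0 = 0) 2 K (by rw [hK _ (by omega)]; rfl) fun k hk e => ?_
    obtain ⟨k, rfl⟩ : ∃ j, k = j + 2 := ⟨k - 2, by omega⟩
    have e' := c (k + 1)
    rw [e, c] at e'
    rw [c]
    exact sub_eq_zero.2 (sq _ _ (sub_eq_zero.1 e'.symm))
  exact sub_eq_zero.1 ((c 0).symm.trans d)

lemma comm (g h : E ≃ᵃⁱ[ℝ] E) (hg : Cl (1 / 16) (L g)) (hh : Cl (1 / 16) (L h)) (K K' : ℕ)
    (hK : ∀ k, K ≤ k → it g h k = 1) (hK' : ∀ k, K' ≤ k → it h g k = 1) : g * h = h * g := by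
  obtain ⟨a1, a2⟩ := fixw g h hg hh K hK
  obtain ⟨b1, b2⟩ := fixw h g hh hg K' hK'
  have c : ∀ x, L g (L h x) = L h (L g x) := fun x => by
    have : L g * L h = L h * L g := by
      have : L g * L h = (L g * L h * (L g)⁻¹ * (L h)⁻¹) * (L h * L g) := by group
      rw [this, a1, one_mul]
    exact congrArg (fun a : E ≃ₗᵢ[ℝ] E => a x) this
  rw [com0, c, sub_self, zero_add] at a2
  rw [com0, ← c, sub_self, zero_add] at b2
  set w := L g (h 0) - h 0 - (L h (g 0) - g 0) with hw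
  have b3 : L h w = w := by
    rw [show L h (g 0) - g 0 - (L g (h 0) - h 0) = -w by rw [hw]; abel, map_neg] at b2
    exact neg_injective b2
  have z : ⟪w, w⟫ = 0 := by
    nth_rewrite 2 [hw]
    rw [inner_sub_right, inner_sub_right, inner_sub_right]
    nth_rewrite 1 [← a2]
    nth_rewrite 3 [← b3]
    rw [(L g).inner_map_map, (L h).inner_map_map]; ring
  have z' := inner_self_eq_zero.1 z
  ext x
  rw [mul_ap, mul_ap, ap g, ap h x, ap h (g x), ap g x, map_add, map_add, c]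
  rw [hw] at z'
  linear_combination (norm := abel_nf) z'

end Pool.Agent.H.MP_ccd76d_co.A
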