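import Pool.Agent.H.MP_ccd76d_co.A

set_option autoImplicit false

namespace Pool.Agent.H.MP_ccd76d_co.B

open scoped RealInnerProductSpace
open Pool.Agent.H.MP_ccd76d_co.A Metric Set

variable {E : Type} [NormedAddCommGroup E] [InnerProductSpace ℝ E]

structure Sys (M : Set (Set E)) (cen : Set E → E) (r R ρ : ℝ) : Prop where
  hr : 0 < r
  hρ : 0 < ρ
  hR : 0 ≤ R
  bal : ∀ S ∈ M, ∃ c ∈ S, ball c r ⊆ S
  dia : ∀ S ∈ M, ∀ x ∈ S, ∀ y ∈ S, dist x y ≤ R
  mem : ∀ S ∈ M, cen S ∈ S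
  fix : ∀ S ∈ M, ∀ u : E ≃ᵃⁱ[ℝ] E, u '' S = S → u (cen S) = cen S
  dis : ∀ S ∈ M, ∀ T ∈ M, S ≠ T → Disjoint (interior S) (interior T)
  den : ∀ x, ∃ S ∈ M, dist (cen S) x ≤ ρ
  cvx : ∀ S ∈ M, Convex ℝ S
  cpt : ∀ S ∈ M, IsCompact S

def ex (M : Set (Set E)) (g : E ≃ᵃⁱ[ℝ] E) : Set (Set E) := {S | S ∈ M ∧ g '' S ∉ M}

lemma im_mul (g h : E ≃ᵃⁱ[ℝ] E) (S : Set E) : ⇑(g * h) '' S = g '' (h '' S) := by
  rw [image_image]; rfl
lemma im_one (S : Set E) : (1 : E ≃ᵃⁱ[ℝ] E) '' S = S := by simp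
lemma im_inv (g : E ≃ᵃⁱ[ℝ] E) (S : Set E) : ⇑(g⁻¹) '' (g '' S) = S := by
  rw [← im_mul, inv_mul_cancel, im_one]
lemma inv_im (g : E ≃ᵃⁱ[ℝ] E) (S : Set E) : g '' (⇑(g⁻¹) '' S) = S := by
  rw [← im_mul, mul_inv_cancel, im_one]

lemma ex_mul (M : Set (Set E)) (g h : E ≃ᵃⁱ[ℝ] E) :
    ex M (g * h) ⊆ ex M h ∪ (fun S => ⇑(h⁻¹) '' S) '' ex M g := by
  rintro S ⟨h1, h2⟩
  by_cases k : h '' S ∈ M
  · exact Or.inr ⟨h '' S, ⟨k, by rwa [← im_mul]⟩, im_inv h S⟩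
  · exact Or.inl ⟨h1, k⟩

def GG (M : Set (Set E)) : Subgroup (E ≃ᵃⁱ[ℝ] E) where
  carrier := {g | (ex M g).Finite ∧ (ex M g⁻¹).Finite}
  mul_mem' := fun {g h} a b => ⟨(b.1.union (a.1.image _)).subset (ex_mul M g h), by
    rw [mul_inv_rev]; exact (a.2.union (b.2.image _)).subset (ex_mul M _ _)⟩
  one_mem' := by
    have : ex M 1 = ∅ := by ext S; simp [ex]
    simp [this]
  inv_mem' := fun {g} a => ⟨a.2, by rw [inv_inv]; exact a.1⟩

noncomputable def nn (M : Set (Set E)) (g : E ≃ᵃⁱ[ℝ] E) : ℕ := (ex M g).ncard + (ex M g⁻¹).ncard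

lemma nn_inv (M : Set (Set E)) (g : E ≃ᵃⁱ[ℝ] E) : nn M g⁻¹ = nn M g := by
  simp only [nn, inv_inv, add_comm]

lemma nn_mul {M : Set (Set E)} {g h : E ≃ᵃⁱ[ℝ] E} (a : g ∈ GG M) (b : h ∈ GG M) :
    nn M (g * h) ≤ nn M g + nn M h := by
  have k : ∀ g h : E ≃ᵃⁱ[ℝ] E, (ex M g).Finite → (ex M h).Finite →
      (ex M (g * h)).ncard ≤ (ex M h).ncard + (ex M g).ncard := fun g h a b =>
    (ncard_le_ncard (ex_mul M g h) (b.union (a.image _))).trans
      ((ncard_union_le _ _).trans (Nat.add_le_add_left (ncard_image_le a) _))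
  have k1 := k g h a.1 b.1
  have k2 := k h⁻¹ g⁻¹ b.2 a.2
  simp only [nn, mul_inv_rev]; omega

lemma half (u : E ≃ᵃⁱ[ℝ] E) (hu : u ≠ 1) (p : E) :
    ∃ n : E, ‖n‖ = 1 ∧ ∀ y, 0 < ⟪y - p, n⟫ → u y ≠ y := by
  obtain ⟨x, hx⟩ : ∃ x, u x ≠ x := by
    by_contra h; push Not at h; exact hu (AffineIsometryEquiv.ext h)
  have w0 : ‖u x - x‖ ≠ 0 := norm_ne_zero_iff.2 (sub_ne_zero.2 hx)
  have k : ∀ y, u y = y → ⟪y - p, u x - x⟫ = (‖u x - p‖ ^ 2 - ‖x - p‖ ^ 2) / 2 := by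
    intro y hy
    have e : ‖(y - p) - (u x - p)‖ = ‖(y - p) - (x - p)‖ := by
      rw [sub_sub_sub_cancel_right, sub_sub_sub_cancel_right, ← (L u).norm_map (y - x), Lsub, hy]
    have e2 := congrArg (· ^ 2) e
    simp only [@norm_sub_sq_real _ _ _ (y - p)] at e2
    rw [← sub_sub_sub_cancel_right (u x) x p, inner_sub_right]; linarith
  have n1 : ‖‖u x - x‖⁻¹ • (u x - x)‖ = 1 := norm_smul_inv_norm (norm_ne_zero_iff.1 w0)
  have ip : 0 ≤ ‖u x - x‖⁻¹ := by positivity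
  rcases le_total ((‖u x - p‖ ^ 2 - ‖x - p‖ ^ 2) / 2) 0 with h | h
  · refine ⟨_, n1, fun y hy e => ?_⟩
    rw [real_inner_smul_right, k y e] at hy; nlinarith
  · refine ⟨-_, (norm_neg _).trans n1, fun y hy e => ?_⟩
    rw [inner_neg_right, real_inner_smul_right, k y e] at hy; nlinarith

lemma im_ball (u : E ≃ᵃⁱ[ℝ] E) (c : E) (r : ℝ) (S : Set E) (h : ball c r ⊆ S) :
    ball (u c) r ⊆ u '' S := fun z hz =>
  ⟨u⁻¹ z, h (by rw [mem_ball, ← u.dist_map, ap_inv]; exact hz), ap_inv u z⟩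

variable {M : Set (Set E)} {cen : Set E → E} {r R ρ : ℝ}

lemma cnt (s : Sys M cen r R ρ) (u : E ≃ᵃⁱ[ℝ] E) (p n v : E) (hn : ‖n‖ = 1) (hv : ‖v‖ = 1)
    (h : 0 ≤ ⟪v, n⟫) (hf : ∀ y, 0 < ⟪y - p, n⟫ → u y ≠ y) :
    ∃ f : ℕ → Set E, Function.Injective f ∧ ∀ k : ℕ,
      (∀ y, ‖y‖ ≤ 3 * ρ + R → ‖u (p + (3 * ρ * k) • v + y) - (p + (3 * ρ * k) • v + y)‖ < r) →
        f k ∈ ex M u := by
  choose f f1 f2 using fun k : ℕ => s.den (p + (3 * ρ * k) • v + (2 * ρ) • n)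
  have hρ := s.hρ
  refine ⟨f, fun k l e => ?_, fun k hk => ⟨f1 k, fun m => ?_⟩⟩
  · have := dist_triangle_left (p + (3 * ρ * k) • v + (2 * ρ) • n)
      (p + (3 * ρ * l) • v + (2 * ρ) • n) (cen (f k))
    have a := f2 l
    rw [← e] at a
    rw [dist_add_right, dist_add_left, dist_eq_norm, ← sub_smul, norm_smul, hv, ← mul_sub,
      Real.norm_eq_abs, abs_mul, abs_of_pos (by positivity)] at this
    have b : |(k : ℝ) - l| < 1 := by nlinarith [f2 k]
    have b' : |(k : ℤ) - l| < 1 := by exact_mod_cast b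
    have := abs_lt.1 b'
    omega
  · obtain ⟨c, c1, c2⟩ := s.bal _ (f1 k)
    have a1 := f2 k
    have ne : u '' f k ≠ f k := fun e => by
      refine hf _ ?_ (s.fix _ (f1 k) u e)
      have b := abs_real_inner_le_norm (cen (f k) - (p + (3 * ρ * k) • v + (2 * ρ) • n)) n
      rw [← dist_eq_norm, hn] at b
      have e : cen (f k) - p = (cen (f k) - (p + (3 * ρ * k) • v + (2 * ρ) • n)) +
        (3 * ρ * k) • v + (2 * ρ) • n := by abel
      rw [e, inner_add_left, inner_add_left, real_inner_smul_left, real_inner_smul_left,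
        real_inner_self_eq_norm_sq, hn]
      have : 0 ≤ 3 * ρ * k * ⟪v, n⟫ := by positivity
      linarith [(abs_le.1 b).1]
    have a2 := hk (c - (p + (3 * ρ * k) • v)) (by
      have b1 := dist_triangle c (cen (f k)) (p + (3 * ρ * k) • v + (2 * ρ) • n)
      have b2 := dist_triangle c (p + (3 * ρ * k) • v + (2 * ρ) • n) (p + (3 * ρ * k) • v)
      rw [dist_self_add_left, norm_smul, hn, Real.norm_of_nonneg (by positivity)] at b2
      rw [← dist_eq_norm]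
      linarith [s.dia _ (f1 k) _ c1 _ (s.mem _ (f1 k))])
    rw [add_sub_cancel] at a2
    exact disjoint_left.1 (s.dis _ m _ (f1 k) ne)
      (interior_maximal (im_ball u c r _ c2) isOpen_ball (mem_ball_self s.hr))
      (interior_maximal c2 isOpen_ball (by rwa [mem_ball, dist_eq_norm]))

lemma eng (s : Sys M cen r R ρ) (g h : E ≃ᵃⁱ[ℝ] E) (a : g ∈ GG M) (b : h ∈ GG M)
    (hg : Cl (1 / 16) (L g)) (hh : Cl (1 / 16) (L h)) : ∃ K, ∀ k, K ≤ k → it g h k = 1 := by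
  have hρ := s.hρ
  have hR := s.hR
  have m : ∀ k, it g h k ∈ GG M ∧ nn M (it g h k) + 2 * nn M g ≤ 2 ^ k * (nn M h + 2 * nn M g) := by
    intro k
    induction k with
    | zero => exact ⟨b, by simp [it]⟩
    | succ k ih =>
      have m1 := mul_mem a ih.1
      have m2 := mul_mem m1 (inv_mem a)
      refine ⟨mul_mem m2 (inv_mem ih.1), ?_⟩
      have n1 := nn_mul a ih.1
      have n2 := nn_mul m1 (inv_mem a)
      have n3 := nn_mul m2 (inv_mem ih.1)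
      rw [nn_inv] at n2 n3
      have := ih.2
      rw [it, pow_succ, mul_comm (2 ^ k) 2, mul_assoc 2]; omega
  set N := nn M h + 2 * nn M g
  obtain ⟨K, hK⟩ := exists_pow_lt_of_lt_one (x := r / (3 * ρ * N + 3 * ρ + R + (‖h 0‖ + ‖g 0‖)))
    (y := 1 / 4) (div_pos s.hr (by positivity)) (by norm_num)
  refine ⟨K, fun k hk => by_contra fun ne => ?_⟩
  obtain ⟨n, hn, hf⟩ := half _ ne 0
  obtain ⟨f, f1, f2⟩ := cnt s _ 0 n n hn hn real_inner_self_nonneg hf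
  have sub : f '' Iic (2 ^ k * N) ⊆ ex M (it g h k) := by
    rintro _ ⟨j, hj, rfl⟩
    refine f2 j fun y hy => ?_
    obtain ⟨i1, i2⟩ := it_bd g h hg hh k
    have hj' : (j : ℝ) ≤ 2 ^ k * N := by exact_mod_cast hj
    have e1 : ‖0 + (3 * ρ * j) • n + y‖ ≤ 2 ^ k * (3 * ρ * N + 3 * ρ + R) := by
      refine (norm_add_le _ _).trans ?_
      rw [zero_add, norm_smul, hn, Real.norm_of_nonneg (by positivity)]
      have : (1 : ℝ) ≤ 2 ^ k := one_le_pow₀ (by norm_num)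
      nlinarith [mul_le_mul_of_nonneg_right this (show 0 ≤ 3 * ρ + R by positivity)]
    generalize 0 + (3 * ρ * j) • n + y = x at e1
    have e2 := (i1 x).trans (mul_le_mul_of_nonneg_left e1 (by positivity))
    have e3 : ((1 : ℝ) / 2) ^ k * 2 ^ k = 1 := by rw [← mul_pow]; norm_num
    have e4 : ((1 : ℝ) / 4) ^ k ≤ (1 / 4) ^ K := pow_le_pow_of_le_one (by norm_num) (by norm_num) hk
    rw [lt_div_iff₀ (by positivity)] at hK
    have e5 := mul_le_mul_of_nonneg_right e4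
      (show 0 ≤ 3 * ρ * N + 3 * ρ + R + (‖h 0‖ + ‖g 0‖) by positivity)
    rw [show 1 / 16 * (1 / 4) ^ k * (1 / 2) ^ k * (2 ^ k * (3 * ρ * N + 3 * ρ + R)) =
      1 / 16 * (1 / 4) ^ k * (3 * ρ * N + 3 * ρ + R) * ((1 / 2) ^ k * 2 ^ k) by ring, e3] at e2
    rw [ap, add_sub_right_comm]
    refine (norm_add_le _ _).trans_lt ?_
    have : 0 ≤ (1 / 4) ^ k * (3 * ρ * N + 3 * ρ + R) := by positivity
    linarith
  have c := ncard_le_ncard sub (m k).1.1
  rw [ncard_image_of_injective _ f1, ← Finset.coe_Iic, ncard_coe_finset, Nat.card_Iic] at c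
  have := (m k).2
  simp only [nn] at this
  omega

lemma line (s : Sys M cen r R ρ) (u : E ≃ᵃⁱ[ℝ] E) (a : u ∈ GG M) (η : ℝ) (h0 : 0 ≤ η)
    (hη : η * (3 * ρ + R) ≤ r / 2) (hu : Cl η (L u)) (p v : E) (hv : ‖v‖ = 1) (e : L u v = v)
    (hp : ‖u p - p‖ < r / 2) : u = 1 := by
  by_contra ne
  obtain ⟨n, hn, hf⟩ := half _ ne p
  have k : ∀ v : E, ‖v‖ = 1 → L u v = v → 0 ≤ ⟪v, n⟫ → False := by
    intro v hv e h
    obtain ⟨f, f1, f2⟩ := cnt s u p n v hn hv h hf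
    refine (infinite_range_of_injective f1).mono ?_ a.1
    rintro _ ⟨j, rfl⟩
    refine f2 j fun y hy => ?_
    have : u (p + (3 * ρ * j) • v + y) - (p + (3 * ρ * j) • v + y) = (u p - p) + (L u y - y) := by
      rw [ap u, ap u p, map_add, map_add, map_smul, e]; abel
    rw [this]
    refine (norm_add_le _ _).trans_lt ?_
    linarith [(hu y).trans (mul_le_mul_of_nonneg_left hy h0)]
  rcases le_total 0 ⟪v, n⟫ with h | h
  · exact k v hv e h
  · exact k (-v) (by rw [norm_neg, hv]) (by rw [map_neg, e]) (by rw [inner_neg_left]; linarith)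

def Near (ε : ℝ) (A B : Set E) : Prop := ∀ x ∈ A, ∃ y ∈ B, dist x y < ε

lemma cancel (S : Set E) (h1 : Convex ℝ S) (h2 : (interior S).Nonempty) (c : E) (r : ℝ)
    (hr : 0 < r) (h : Near (r / 2) (ball c r) S) : c ∈ interior S := by
  by_contra hc
  obtain ⟨f, hf⟩ := geometric_hahn_banach_open_point h1.interior isOpen_interior hc
  have le : ∀ y ∈ S, f y ≤ f c := fun y hy => by
    have : y ∈ closure (interior S) := by
      rw [h1.closure_interior_eq_closure_of_nonempty_interior h2]; exact subset_closure hy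
    exact closure_minimal (fun a ha => (hf a ha).le) (isClosed_le f.continuous continuous_const) this
  have f0 : 0 < ‖f‖ := norm_pos_iff.2 fun e => by
    obtain ⟨a, ha⟩ := h2
    have := hf a ha
    simp [e] at this
  obtain ⟨x, x1, x2⟩ := f.exists_lt_apply_of_lt_opNorm (r := ‖f‖ / 2) (by linarith)
  have k : ∀ x : E, ‖x‖ < 1 → f x ≤ ‖f‖ / 2 := fun x x1 => by
    obtain ⟨y, y1, y2⟩ := h (c + r • x) (by
      rw [mem_ball, dist_self_add_left, norm_smul, Real.norm_of_nonneg hr.le]; nlinarith)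
    have b := f.le_opNorm (c + r • x - y)
    rw [← dist_eq_norm, map_sub, map_add, map_smul, smul_eq_mul, Real.norm_eq_abs] at b
    have b2 := (abs_le.1 b).2
    have := le y y1
    nlinarith
  have k1 := k x x1
  have k2 := k (-x) (by rwa [norm_neg])
  rw [map_neg] at k2
  rw [Real.norm_eq_abs] at x2
  exact absurd (abs_le.2 ⟨by linarith, k1⟩) (not_le.2 x2)

lemma sepH (s : Sys M cen r R ρ) (S T : Set E) (hS : S ∈ M) (hT : T ∈ M) (z : E)
    (hz : z ∈ interior S) (h : Near (r / 2) (ball z r) T) : S = T := by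
  by_contra ne
  obtain ⟨c, -, c2⟩ := s.bal T hT
  exact disjoint_left.1 (s.dis _ hS _ hT ne) hz (cancel T (s.cvx T hT)
    ⟨c, interior_maximal c2 isOpen_ball (mem_ball_self s.hr)⟩ z r s.hr h)

lemma ell (s : Sys M cen r R ρ) (u : E ≃ᵃⁱ[ℝ] E) (η : ℝ) (h0 : 0 ≤ η)
    (hη : η * (ρ + R) ≤ r / 8) (hu : Cl η (L u)) (p : E) (hp : u p = p)
    (h : ∀ S ∈ M, ∃ T ∈ M, Near (r / 4) (u '' S) T) : u = 1 := by
  by_contra ne
  have hr := s.hr
  obtain ⟨x, hx⟩ : ∃ x, u x ≠ x := by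
    by_contra h; push Not at h; exact ne (AffineIsometryEquiv.ext h)
  have w0 : 0 < ‖u x - x‖ := norm_pos_iff.2 (sub_ne_zero.2 hx)
  set t := r / 2 / ‖u x - x‖ with ht
  set w := t • (u x - x) with hw
  have nw : ‖w‖ = r / 2 := by
    rw [hw, norm_smul, Real.norm_of_nonneg (by positivity), ht]; field_simp
  obtain ⟨S, hS, d⟩ := s.den (p + t • (x - p))
  have k : ∀ y ∈ S, ‖u y - y - w‖ ≤ r / 8 := fun y hy => by
    have e : u y - y - w = L u (y - (p + t • (x - p))) - (y - (p + t • (x - p))) := by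
      rw [← sub_sub y, map_sub, map_smul, Lsub, Lsub, hp, hw]; module
    rw [e]
    refine (hu _).trans ((mul_le_mul_of_nonneg_left ?_ h0).trans hη)
    rw [← dist_eq_norm]
    linarith [dist_triangle y (cen S) (p + t • (x - p)), s.dia S hS y hy _ (s.mem S hS)]
  obtain ⟨T, hT, nr⟩ := h S hS
  obtain ⟨c, c1, c2⟩ := s.bal S hS
  have e : S = T := by
    refine sepH s S T hS hT (u c) (interior_maximal c2 isOpen_ball ?_) fun y hy => ?_
    · rw [mem_ball, dist_eq_norm]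
      have := norm_add_le (u c - c - w) w
      rw [sub_add_cancel] at this
      linarith [k c c1]
    · obtain ⟨z, z1, z2⟩ := nr y (im_ball u c r S c2 hy)
      exact ⟨z, z1, by linarith⟩
  subst e
  obtain ⟨m, m1, m2⟩ := (s.cpt S hS).exists_isMaxOn ⟨c, c1⟩ (f := fun y => ⟪y, w⟫) (by fun_prop)
  obtain ⟨z, z1, z2⟩ := nr _ ⟨m, m1, rfl⟩
  have a1 : ⟪z, w⟫ ≤ ⟪m, w⟫ := m2 z1
  have a2 := abs_real_inner_le_norm (u m - z) w
  have a3 := abs_real_inner_le_norm (u m - m - w) w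
  rw [← dist_eq_norm, inner_sub_left] at a2
  rw [inner_sub_left, inner_sub_left, real_inner_self_eq_norm_sq] at a3
  have a4 := (abs_le.1 a2).2
  have a5 := (abs_le.1 a3).1
  rw [nw] at a4 a5
  nlinarith [k m m1]

end Pool.Agent.H.MP_ccd76d_co.B
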