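import Pool.Agent.H.MP_ccd76d_co.B

set_option autoImplicit false

namespace Pool.Agent.H.MP_ccd76d_co.C

open Pool.Agent.H.MP_ccd76d_co.A Pool.Agent.H.MP_ccd76d_co.B Metric Set

lemma finsep {α X : Type} [PseudoMetricSpace X] [ProperSpace X] (A : Set α) (φ : α → X)
    (hb : Bornology.IsBounded (φ '' A)) (δ : ℝ) (hδ : 0 < δ)
    (hs : ∀ a ∈ A, ∀ b ∈ A, dist (φ a) (φ b) < δ → a = b) : A.Finite := by
  obtain ⟨t, ht, hc⟩ := Metric.totallyBounded_iff.1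
    (hb.isCompact_closure.totallyBounded.subset subset_closure) (δ / 2) (by positivity)
  refine (ht.biUnion (t := fun y => {a ∈ A | φ a ∈ ball y (δ / 2)}) fun y _ =>
    Set.Subsingleton.finite fun a ha b hb => hs a ha.1 b hb.1 ?_).subset fun a ha => ?_
  · linarith [dist_triangle_right (φ a) (φ b) y, mem_ball.1 ha.2, mem_ball.1 hb.2]
  · obtain ⟨y, y1, y2⟩ := mem_iUnion₂.1 (hc ⟨a, ha, rfl⟩)
    exact mem_iUnion₂.2 ⟨y, y1, ha, y2⟩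

variable {E : Type} [NormedAddCommGroup E] [InnerProductSpace ℝ E] [FiniteDimensional ℝ E]

noncomputable def LC (g : E ≃ᵃⁱ[ℝ] E) : E →L[ℝ] E := (L g).toLinearIsometry.toContinuousLinearMap

omit [FiniteDimensional ℝ E] in
lemma LC_le (g : E ≃ᵃⁱ[ℝ] E) : ‖LC g‖ ≤ 1 := LinearIsometry.norm_toContinuousLinearMap_le _

omit [FiniteDimensional ℝ E] in
lemma LC_cl (g h : E ≃ᵃⁱ[ℝ] E) (η : ℝ) (e : dist (LC g) (LC h) ≤ η) : Cl η (L (g * h⁻¹)) := by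
  intro x
  have := (LC g - LC h).le_of_opNorm_le (c := η) (by rwa [← dist_eq_norm]) ((L h).symm x)
  simpa [LC, A.L_mul, L_inv] using this

omit [FiniteDimensional ℝ E] in
lemma hom {Γ : Subgroup (E ≃ᵃⁱ[ℝ] E)} {p : E} (b : ∀ g ∈ Γ, ∀ h ∈ Γ, L g (h p - p) = h p - p)
    (g h : E ≃ᵃⁱ[ℝ] E) (hg : g ∈ Γ) (hh : h ∈ Γ) :
    (g * h) p - p = (g p - p) + (h p - p) := by
  rw [← b g hg h hh, Lsub, mul_ap]; abel

variable {M : Set (Set E)} {cen : Set E → E} {r R ρ : ℝ}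

lemma proper (s : Sys M cen r R ρ) (Γ : Subgroup (E ≃ᵃⁱ[ℝ] E)) (hΓ : Γ ≤ GG M) (p : E)
    (b : ∀ g ∈ Γ, ∀ h ∈ Γ, L g (h p - p) = h p - p) (k : E ≃ᵃⁱ[ℝ] E) (hk : k ∈ Γ) (ne : k p ≠ p)
    (B : ℝ) : {g | g ∈ Γ ∧ ‖g p - p‖ ≤ B}.Finite := by
  have hρ := s.hρ
  have hR := s.hR
  have hr := s.hr
  refine finsep _ (fun g => (LC g, g p)) ?_ (min (r / 2 / (3 * ρ + R)) (r / 2)) (by positivity)
    fun g hg h hh e => ?_
  · refine ((isBounded_closedBall (x := 0) (r := 1)).prod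
      (isBounded_closedBall (x := p) (r := B))).subset ?_
    rintro _ ⟨g, hg, rfl⟩
    exact ⟨by simpa using LC_le g, by rw [mem_closedBall, dist_eq_norm]; exact hg.2⟩
  · rw [Prod.dist_eq, max_lt_iff, lt_min_iff, lt_min_iff] at e
    have m := mul_mem hg.1 (inv_mem hh.1)
    refine mul_inv_eq_one.1 (line s _ (hΓ m) _ (by positivity) (le_of_eq ?_) (LC_cl g h _ e.1.1.le) p
      (‖k p - p‖⁻¹ • (k p - p)) (norm_smul_inv_norm (sub_ne_zero.2 ne))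
      (by rw [map_smul, b _ m k hk]) ?_)
    · field_simp
    · have := hom b _ h m hh.1
      rw [inv_mul_cancel_right] at this
      rw [eq_sub_of_add_eq this.symm, sub_sub_sub_cancel_right, ← dist_eq_norm]
      exact e.2.2

noncomputable def lat {Γ : Subgroup (E ≃ᵃⁱ[ℝ] E)} {p : E}
    (b : ∀ g ∈ Γ, ∀ h ∈ Γ, L g (h p - p) = h p - p) (H : Subgroup (E ≃ᵃⁱ[ℝ] E)) (hH : H ≤ Γ) :
    Submodule ℤ E := AddSubgroup.toIntSubmodule
  { carrier := {x | ∃ g ∈ H, g p - p = x}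
    zero_mem' := ⟨1, one_mem _, by simp⟩
    add_mem' := by
      rintro _ _ ⟨g, hg, rfl⟩ ⟨h, hh, rfl⟩
      exact ⟨g * h, mul_mem hg hh, hom b g h (hH hg) (hH hh)⟩
    neg_mem' := by
      rintro _ ⟨g, hg, rfl⟩
      refine ⟨g⁻¹, inv_mem hg, ?_⟩
      have := hom b g⁻¹ g (hH (inv_mem hg)) (hH hg)
      rw [mul_ap, inv_ap, sub_self] at this
      exact eq_neg_of_add_eq_zero_left this.symm }

lemma fg (Γ : Subgroup (E ≃ᵃⁱ[ℝ] E)) (hΓ : Γ ≤ GG M) (p : E)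
    (b : ∀ g ∈ Γ, ∀ h ∈ Γ, L g (h p - p) = h p - p)
    (pr : ∀ B : ℝ, {g | g ∈ Γ ∧ ‖g p - p‖ ≤ B}.Finite) :
    ∃ F ⊆ M, F.Finite ∧ ∀ g ∈ Γ, ∀ S ∈ M, (∀ k ∈ Γ, ∀ a ∈ F, S ≠ k '' a) → g '' S ∈ M := by
  have : DiscreteTopology (lat b Γ le_rfl) := by
    refine discreteTopology_iff_isOpen_singleton_zero.2 ?_
    have o := (isOpen_ball (x := (0 : E)) (ε := 1)).sdiff
      (((pr 1).image fun g => g p - p).sdiff (t := {0})).isClosed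
    convert o.preimage continuous_subtype_val using 1
    ext ⟨x, g, hg, rfl⟩
    simp only [mem_singleton_iff, Subtype.ext_iff, ZeroMemClass.coe_zero, mem_preimage, mem_sdiff, mem_ball_zero_iff,
      not_and, not_not]
    exact ⟨fun e => ⟨by simp [e], fun _ => e⟩, fun e => e.2 ⟨g, ⟨hg, e.1.le⟩, rfl⟩⟩
  obtain ⟨T, hT, sp⟩ := Submodule.fg_def.1 (Module.Finite.iff_fg.1
    (inferInstance : Module.Finite ℤ (lat b Γ le_rfl)))
  obtain ⟨B, hB⟩ := hT.isBounded.exists_norm_le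
  let F := ⋃ g ∈ {g | g ∈ Γ ∧ ‖g p - p‖ ≤ max B 0}, ex M g ∪ ex M g⁻¹
  let P : Set E → Prop := fun S => S ∈ M ∧ ∀ k ∈ Γ, ∀ a ∈ F, S ≠ k '' a
  have pp : ∀ g ∈ Γ, ∀ S, P S → g '' S ∈ M → P (g '' S) := fun g hg S hS e =>
    ⟨e, fun k hk a ha e => hS.2 (g⁻¹ * k) (mul_mem (inv_mem hg) hk) a ha (by
      rw [im_mul, ← e, im_inv])⟩
  let H : Subgroup (E ≃ᵃⁱ[ℝ] E) :=
    { carrier := {g | g ∈ Γ ∧ ∀ S, P S → g '' S ∈ M ∧ ⇑(g⁻¹) '' S ∈ M}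
      one_mem' := ⟨one_mem _, fun S hS => by rw [inv_one, im_one]; exact ⟨hS.1, hS.1⟩⟩
      mul_mem' := fun {g h} hg hh => ⟨mul_mem hg.1 hh.1, fun S hS => by
        rw [mul_inv_rev, im_mul, im_mul]
        exact ⟨(hg.2 _ (pp h hh.1 S hS (hh.2 S hS).1)).1,
          (hh.2 _ (pp _ (inv_mem hg.1) S hS (hg.2 S hS).2)).2⟩⟩
      inv_mem' := fun {g} hg => ⟨inv_mem hg.1, fun S hS => by
        rw [inv_inv]; exact (hg.2 S hS).symm⟩ }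
  have sm : ∀ g ∈ Γ, ‖g p - p‖ ≤ max B 0 → g ∈ H := fun g hg e => ⟨hg, fun S hS =>
    ⟨by_contra fun n => hS.2 1 (one_mem _) S (mem_iUnion₂.2 ⟨g, ⟨hg, e⟩, Or.inl ⟨hS.1, n⟩⟩)
      (im_one S).symm, by_contra fun n => hS.2 1 (one_mem _) S
      (mem_iUnion₂.2 ⟨g, ⟨hg, e⟩, Or.inr ⟨hS.1, n⟩⟩) (im_one S).symm⟩⟩
  have le : lat b Γ le_rfl ≤ lat b H fun g hg => hg.1 := by
    rw [← sp, Submodule.span_le]
    intro x hx
    obtain ⟨g, hg, rfl⟩ : x ∈ lat b Γ le_rfl := sp ▸ Submodule.subset_span hx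
    exact ⟨g, sm g hg ((hB _ hx).trans (le_max_left _ _)), rfl⟩
  refine ⟨F, fun S hS => ?_, (pr _).biUnion fun g hg => (hΓ hg.1).1.union (hΓ hg.1).2,
    fun g hg S hS n => ?_⟩
  · obtain ⟨g, -, h | h⟩ := mem_iUnion₂.1 hS <;> exact h.1
  · obtain ⟨h, hh, e⟩ := le ⟨g, hg, rfl⟩
    have m := mul_mem (inv_mem hh.1) hg
    have := hom b h _ hh.1 m
    rw [mul_inv_cancel_left, e, left_eq_add] at this
    have := mul_mem hh (sm _ m (by rw [this]; simp))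
    rw [mul_inv_cancel_left] at this
    exact (this.2 S ⟨hS, n⟩).1

omit [FiniteDimensional ℝ E] in
lemma orb (Γ : Subgroup (E ≃ᵃⁱ[ℝ] E)) (p : E)
    (pr : ∀ B : ℝ, {g | g ∈ Γ ∧ ‖g p - p‖ ≤ B}.Finite) (F : Set (Set E)) (hF : F.Finite)
    (c : ∀ a ∈ F, IsCompact a ∧ a.Nonempty) : ∃ δ > 0, ∀ g ∈ Γ, ∀ h ∈ Γ, ∀ a ∈ F, ∀ b ∈ F,
      hausdorffDist (g '' a) (h '' b) < δ → g '' a = h '' b := by
  obtain ⟨B, hB⟩ := (((Bornology.isBounded_biUnion hF).2 fun a ha =>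
    (c a ha).1.isBounded).subset_closedBall p)
  have b : ∀ a ∈ F, ∀ x ∈ a, dist x p ≤ B := fun a ha x hx => hB (mem_iUnion₂.2 ⟨a, ha, hx⟩)
  have fz := (((pr (B + 1 + B)).prod (hF.prod hF)).image
    fun q => hausdorffDist q.2.1 (q.1 '' q.2.2)).sdiff (t := {0})
  obtain ⟨δ, h0, hδ⟩ := Metric.isOpen_iff.1 fz.isClosed.isOpen_compl 0 fun h => h.2 rfl
  refine ⟨min δ 1, by positivity, fun g hg h hh a ha a' ha' e => ?_⟩
  have e1 : hausdorffDist a (⇑(g⁻¹ * h) '' a') = hausdorffDist (g '' a) (h '' a') := by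
    rw [← hausdorffDist_image g.isometry, im_mul, inv_im]
  rw [← e1, lt_min_iff] at e
  have m := mul_mem (inv_mem hg) hh
  suffices a = ⇑(g⁻¹ * h) '' a' by rw [this, im_mul, inv_im]
  generalize g⁻¹ * h = k at e m
  have c2 := (c a' ha').1.image k.continuous
  have nt := hausdorffEDist_ne_top_of_nonempty_of_bounded (c a ha).2 ((c a' ha').2.image k)
    (c a ha).1.isBounded c2.isBounded
  refine ((c a ha).1.isClosed.hausdorffDist_zero_iff_eq c2.isClosed nt).1 (by_contra fun n => ?_)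
  refine hδ (mem_ball.2 (by rw [Real.dist_eq, sub_zero, abs_of_nonneg hausdorffDist_nonneg]; exact e.1))
    ⟨⟨(k, a, a'), ⟨⟨m, ?_⟩, ha, ha'⟩, rfl⟩, n⟩
  obtain ⟨x, hx⟩ := (c a ha).2
  obtain ⟨_, ⟨y, hy, rfl⟩, d⟩ := exists_dist_lt_of_hausdorffDist_lt hx e.2 nt
  have := dist_triangle4 (k p) (k y) x p
  rw [k.dist_map, dist_comm p y, dist_comm (k y) x, dist_eq_norm] at this
  linarith [b a ha x hx, b a' ha' y hy]

theorem gap (s : Sys M cen r R ρ) (Z : Set (E ≃ᵃⁱ[ℝ] E)) (hZ : ∀ g ∈ Z, g ∈ GG M)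
    (nr : ∀ g ∈ Z, ∀ h ∈ Z, ∀ S ∈ M, ∃ T ∈ M, Near (r / 4) (⇑(g * h⁻¹) '' S) T) :
    ∃ δ > 0, ∀ g ∈ Z, ∀ A ∈ M, ∀ S ∈ M, ⇑(g⁻¹) '' A ∉ M → g '' S ∉ M →
      δ ≤ hausdorffDist A (g '' S) := by
  have hρ := s.hρ
  have hR := s.hR
  have hr := s.hr
  set η := min (1 / 16) (r / 8 / (ρ + R)) with hη
  have η0 : 0 < η := by positivity
  let N := {u | (∃ g ∈ Z, ∃ h ∈ Z, u = g * h⁻¹) ∧ Cl η (L u)}
  have NG : ∀ u ∈ N, u ∈ GG M := by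
    rintro _ ⟨⟨g, hg, h, hh, rfl⟩, -⟩
    exact mul_mem (hZ g hg) (inv_mem (hZ h hh))
  have N16 : ∀ u ∈ N, Cl (1 / 16) (L u) := fun u hu x =>
    (hu.2 x).trans (mul_le_mul_of_nonneg_right (min_le_left _ _) (norm_nonneg _))
  have hΓ : Subgroup.closure N ≤ GG M := (Subgroup.closure_le _).2 NG
  have cm : ∀ g ∈ N, ∀ h ∈ N, g * h = h * g := fun g hg h hh => by
    obtain ⟨K, hK⟩ := eng s g h (NG g hg) (NG h hh) (N16 g hg) (N16 h hh)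
    obtain ⟨K', hK'⟩ := eng s h g (NG h hh) (NG g hg) (N16 h hh) (N16 g hg)
    exact comm g h (N16 g hg) (N16 h hh) K K' hK hK'
  obtain ⟨p, b⟩ := base (Subgroup.closure N : Set (E ≃ᵃⁱ[ℝ] E)) fun g hg h hh =>
    Subgroup.mem_centralizer_iff.1 (Subgroup.closure_le_centralizer_centralizer N hh) g
      ((Subgroup.closure_le _).2 (fun g hg => Subgroup.mem_centralizer_iff.2 fun h hh =>
        cm h hh g hg) hg)
  have pr : ∀ B : ℝ, {g | g ∈ Subgroup.closure N ∧ ‖g p - p‖ ≤ B}.Finite := by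
    intro B
    by_cases e : ∃ k ∈ Subgroup.closure N, k p ≠ p
    · obtain ⟨k, hk, e⟩ := e
      exact proper s _ hΓ p b k hk e B
    · push Not at e
      have : Subgroup.closure N ≤ ⊥ := (Subgroup.closure_le _).2 fun u hu => by
        refine ell s u η η0.le ?_ hu.2 p (e u (Subgroup.subset_closure hu)) ?_
        · exact (le_div_iff₀ (by positivity)).1 (min_le_right _ _)
        · obtain ⟨⟨g, hg, h, hh, rfl⟩, -⟩ := hu
          exact nr g hg h hh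
      exact (finite_singleton 1).subset fun g hg => this hg.1
  obtain ⟨F, FM, hF, pu⟩ := fg _ hΓ p b pr
  obtain ⟨T, TZ, hT, cov⟩ : ∃ T ⊆ Z, T.Finite ∧ ∀ g ∈ Z, ∃ t ∈ T, dist (LC g) (LC t) < η := by
    obtain ⟨T, T1, T2, T3⟩ := finite_approx_of_totallyBounded (s := LC '' Z)
      ((isCompact_closedBall (0 : E →L[ℝ] E) 1).totallyBounded.subset (by
        rintro _ ⟨g, -, rfl⟩; simpa using LC_le g)) η η0
    obtain ⟨U, U1, U2, rfl⟩ := T2.exists_subset_finite_image_eq T1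
    refine ⟨U, U1, U2, fun g hg => ?_⟩
    obtain ⟨_, ⟨t, ht, rfl⟩, d⟩ := mem_iUnion₂.1 (T3 ⟨g, hg, rfl⟩)
    exact ⟨t, ht, d⟩
  have ne : ∀ S ∈ M, IsCompact S ∧ S.Nonempty := fun S hS => ⟨s.cpt S hS, _, s.mem S hS⟩
  obtain ⟨δ, δ0, hδ⟩ := orb _ p pr (F ∪ ⋃ t ∈ T, (fun S => t '' S) '' ex M t ∪ ex M t⁻¹)
    (hF.union (hT.biUnion fun t ht => ((hZ t (TZ ht)).1.image _).union (hZ t (TZ ht)).2)) (by
      rintro a (h | h)
      · exact ne a (FM h)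
      · obtain ⟨t, -, ⟨S, hS, rfl⟩ | h⟩ := mem_iUnion₂.1 h
        · exact ⟨(ne S hS.1).1.image t.continuous, (ne S hS.1).2.image _⟩
        · exact ne a h.1)
  refine ⟨δ, δ0, fun g hg A hA S hS n1 n2 => not_lt.1 fun lt => ?_⟩
  obtain ⟨t, ht, d⟩ := cov g hg
  have m : g * t⁻¹ ∈ Subgroup.closure N :=
    Subgroup.subset_closure ⟨⟨g, hg, t, TZ ht, rfl⟩, LC_cl g t η d.le⟩
  obtain ⟨γ, rfl⟩ : ∃ γ, g = γ * t := ⟨g * t⁻¹, by simp⟩
  rw [mul_inv_cancel_right] at m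
  have o1 : ∃ k ∈ Subgroup.closure N, ∃ a ∈ F ∪ ⋃ t ∈ T, (fun S => t '' S) '' ex M t ∪ ex M t⁻¹,
      A = k '' a := by
    by_contra n
    push Not at n
    refine n γ m (⇑(γ⁻¹) '' A) (Or.inr (mem_iUnion₂.2 ⟨t, ht, Or.inr ⟨pu _ (inv_mem m) A hA
      fun k hk a ha => n k hk a (Or.inl ha), ?_⟩⟩)) (inv_im γ A).symm
    rwa [← im_mul, ← mul_inv_rev]
  have o2 : ∃ k ∈ Subgroup.closure N, ∃ a ∈ F ∪ ⋃ t ∈ T, (fun S => t '' S) '' ex M t ∪ ex M t⁻¹,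
      ⇑(γ * t) '' S = k '' a := by
    by_contra n
    push Not at n
    rw [im_mul] at n n2
    by_cases e : t '' S ∈ M
    · exact n2 (pu γ m _ e fun k hk a ha e => n (γ * k) (mul_mem m hk) a (Or.inl ha)
        (by rw [e, im_mul]))
    · exact n γ m _ (Or.inr (mem_iUnion₂.2 ⟨t, ht, Or.inl ⟨S, ⟨hS, e⟩, rfl⟩⟩)) rfl
  obtain ⟨k, hk, a, ha, e⟩ := o1
  obtain ⟨k', hk', a', ha', e'⟩ := o2
  rw [e'] at lt n2
  rw [e] at lt
  exact n2 (hδ k hk k' hk' a ha a' ha' lt ▸ e ▸ hA)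

end Pool.Agent.H.MP_ccd76d_co.C
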